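import Pool.Agent.H76.SW.CT

/-! Module CDP (MP_d2582e_lc): the decision procedure is primitive recursive. -/

set_option autoImplicit false
set_option synthInstance.maxSize 4096

namespace Pool.Agent.H91.SW

open Pool.Agent.H76.SW

theorem dp_ex {α β : Type} [Primcodable α] [Primcodable β] {L : β → List α} (hL : Primrec L)
    {R : α → β → Prop} (hR : PrimrecRel R) : PrimrecPred fun b => ∃ a ∈ L b, R a b :=
  hR.exists_mem_list.comp hL Primrec.id

theorem dp_all {α β : Type} [Primcodable α] [Primcodable β] {L : β → List α} (hL : Primrec L)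
    {R : α → β → Prop} (hR : PrimrecRel R) : PrimrecPred fun b => ∀ a ∈ L b, R a b :=
  hR.forall_mem_list.comp hL Primrec.id

theorem dp_MB (h7 : U_p1_prim) (a k r : ℕ) : Primrec (MB a k r) := by
  have h := (h7 k r).1
  unfold MB
  exact Primrec.nat_add.comp (Primrec.nat_add.comp (Primrec.nat_add.comp (Primrec.const a) h)
    (Primrec.const r)) (Primrec.const 2)

theorem dp_CB (h6 : V_ZP) (h7 : U_p1_prim) (a k r : ℕ) : Primrec (CB a k r) :=
  (h7 k r).2 (fun s => SzB (MB a k r s)) (h6.2.comp (dp_MB h7 a k r))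

theorem dp_in (h2 : V_SP) (h3 : V_PP) (a r : ℕ) :
    PrimrecRel (fun (z : List ℕ) (b : GrC × (ℕ × (PrC × UqC))) =>
      z.length = r → (UqSat b.2.1 b.1 b.2.2.2 z ↔ PrSat b.2.1 a b.1 b.2.2.1 z)) := by
  have hz : Primrec (fun p : List ℕ × (GrC × (ℕ × (PrC × UqC))) => p.1) := Primrec.fst
  have hE : Primrec (fun p : List ℕ × (GrC × (ℕ × (PrC × UqC))) => p.2.1) :=
    Primrec.fst.comp Primrec.snd
  have hn : Primrec (fun p : List ℕ × (GrC × (ℕ × (PrC × UqC))) => p.2.2.1) :=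
    Primrec.fst.comp (Primrec.snd.comp Primrec.snd)
  have hP : Primrec (fun p : List ℕ × (GrC × (ℕ × (PrC × UqC))) => p.2.2.2.1) :=
    Primrec.fst.comp (Primrec.snd.comp (Primrec.snd.comp Primrec.snd))
  have hx : Primrec (fun p : List ℕ × (GrC × (ℕ × (PrC × UqC))) => p.2.2.2.2) :=
    Primrec.snd.comp (Primrec.snd.comp (Primrec.snd.comp Primrec.snd))
  have a1 : PrimrecPred (fun p : List ℕ × (GrC × (ℕ × (PrC × UqC))) => p.1.length = r) :=
    Primrec.eq.comp (Primrec.list_length.comp hz) (Primrec.const r)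
  have a2 : PrimrecPred (fun p : List ℕ × (GrC × (ℕ × (PrC × UqC))) =>
      UqSat p.2.2.1 p.2.1 p.2.2.2.2 p.1) :=
    h2.comp (Primrec.pair (Primrec.pair hn hE) (Primrec.pair hx hz))
  have a3 : PrimrecPred (fun p : List ℕ × (GrC × (ℕ × (PrC × UqC))) =>
      PrSat p.2.2.1 a p.2.1 p.2.2.2.1 p.1) :=
    (h3 a).comp (Primrec.pair (Primrec.pair hn hE) (Primrec.pair hP hz))
  have a4 := a1.not.or ((a2.and a3).or (a2.not.and a3.not))
  refine a4.of_eq ?_
  rintro ⟨z, E, n, P, x⟩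
  dsimp only
  tauto

theorem pf_CDP (h1 : V_LP) (h2 : V_SP) (h3 : V_PP) (h4 : V_WP) (h5 : V_UP) (h6 : V_ZP)
    (h7 : U_p1_prim) : V_DP := by
  intro a k r
  have b1 := dp_in h2 h3 a r
  have b2 : PrimrecRel (fun (E : GrC) (b : ℕ × (PrC × UqC)) =>
      ∀ z ∈ lists (List.range b.1) r, z.length = r →
        (UqSat b.1 E b.2.2 z ↔ PrSat b.1 a E b.2.1 z)) :=
    dp_all (β := GrC × (ℕ × (PrC × UqC)))
      (L := fun b => lists (List.range b.2.1) r)
      (h1.comp (Primrec.list_range.comp (Primrec.fst.comp Primrec.snd)) (Primrec.const r)) b1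
  have b3 : PrimrecRel (fun (n : ℕ) (b : PrC × UqC) =>
      ∀ E ∈ grU n a, ∀ z ∈ lists (List.range n) r, z.length = r →
        (UqSat n E b.2 z ↔ PrSat n a E b.1 z)) :=
    dp_all (β := ℕ × (PrC × UqC)) (L := fun b => grU b.1 a)
      ((h5.2 a).comp Primrec.fst) b2
  have b4 : PrimrecRel (fun (P : PrC) (x : UqC) =>
      ∀ n ∈ List.range (CB a k r (szC x) + 1), ∀ E ∈ grU n a, ∀ z ∈ lists (List.range n) r,
        z.length = r → (UqSat n E x z ↔ PrSat n a E P z)) :=
    dp_all (β := PrC × UqC) (L := fun b => List.range (CB a k r (szC b.2) + 1))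
      (Primrec.list_range.comp (Primrec.succ.comp ((dp_CB h6 h7 a k r).comp
        (h6.1.comp Primrec.snd)))) b3
  have b5 : PrimrecRel (fun (P : PrC) (x : UqC) => (WfPr a r k P ∧ SiPr a P) ∧
      ∀ n ∈ List.range (CB a k r (szC x) + 1), ∀ E ∈ grU n a, ∀ z ∈ lists (List.range n) r,
        z.length = r → (UqSat n E x z ↔ PrSat n a E P z)) :=
    PrimrecPred.and (p := fun b : PrC × UqC => WfPr a r k b.1 ∧ SiPr a b.1)
      ((h4 a r k).comp Primrec.fst) b4
  exact dp_ex (β := UqC) (L := fun x => prU (MB a k r (szC x)))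
    (h5.1.comp ((dp_MB h7 a k r).comp h6.1)) b5

end Pool.Agent.H91.SW
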