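import Pool.Agent.H76.SW.CT

/-! Module CIN (MP_d2582e_lc): codes of inputs. -/

set_option autoImplicit false

namespace Pool.Agent.H91.SW

open Pool.Agent.H76.SW

theorem in_sum {a r : ℕ} (b : Body (Fin a) 0) (out : Fin r → Fin b.n)
    (sub : Fin 0 → RQ (Fin a)) (q : CqC) (h : CodesCRQ ⟨0, b, sub, out⟩ q) :
    1 + q.1.1 + q.2.length + (q.2.map fun t => t.2.1.1).sum =
      (⟨0, b, sub, out⟩ : CRQ (Fin a) r).size := by
  obtain ⟨⟨h1, h2, h3⟩, -⟩ := h
  have e : (q.2.map fun t => t.2.1.1) = List.ofFn fun i : Fin b.m => b.st i := by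
    refine List.ext_getElem (by simpa using h2) ?_
    intro i hi hi'
    rw [List.length_ofFn] at hi'
    obtain ⟨x, hx, hc⟩ := h3 ⟨i, hi'⟩
    rw [List.length_map] at hi
    rw [List.getElem_map, List.getElem_ofFn]
    have hx' : q.2[i]'hi = (((b.src ⟨i, hi'⟩ : ℕ), (b.tgt ⟨i, hi'⟩ : ℕ)), x) := by
      have := List.getElem?_eq_getElem hi
      simp only at hx
      rw [this] at hx
      exact Option.some.inj hx
    rw [hx']
    exact hc.st
  rw [e, List.sum_ofFn, h2]
  simp only [CRQ.size, Body.size, Finset.univ_eq_empty, Finset.sum_empty]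
  simp only at h1
  omega

theorem in_sat (h1 : V_CI) {a r n : ℕ} (b : Body (Fin a) 0) (out : Fin r → Fin b.n)
    (sub : Fin 0 → RQ (Fin a)) (q : CqC) (h : CodesCRQ ⟨0, b, sub, out⟩ q) (E : GrC)
    (hE : GrOK n a E) (z : Fin r → Fin n) :
    CqSat n E q (List.ofFn fun i => (z i : ℕ)) ↔
      (⟨0, b, sub, out⟩ : CRQ (Fin a) r).Sat (toRel n a E) z :=
  h1 (nmA a 0) b q h.1 out h.2 (toRel n a E) (fun j => (sub j).Sat (toRel n a E)) E
    (by
      intro u l v
      cases l with
      | inl l => exact Iff.rfl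
      | inr j => exact j.elim0)
    (fun e he => ⟨(hE e he).1, (hE e he).2.2⟩) z

theorem pf_CIN (h1 : V_CI) : V_IN := by
  intro a r Γ x hU hC
  unfold Codes at hC
  induction hC with
  | nil =>
    refine ⟨rfl, ?_⟩
    intro n E _ z
    constructor
    · rintro ⟨q, hq, -⟩
      exact absurd hq (List.not_mem_nil)
    · rintro ⟨q, hq, -⟩
      exact absurd hq (List.not_mem_nil)
  | @cons t q Γ x h _ ih =>
    obtain ⟨i1, i2⟩ := ih (fun s hs => hU s (List.mem_cons_of_mem _ hs))
    obtain ⟨c, b, sub, out⟩ := t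
    have hc : c = 0 := hU _ List.mem_cons_self
    subst hc
    refine ⟨?_, ?_⟩
    · have e := in_sum b out sub q h
      unfold szC Query.size at i1 ⊢
      rw [List.map_cons, List.map_cons, List.sum_cons, List.sum_cons, i1, e]
    · intro n E hE z
      have e := in_sat h1 b out sub q h E hE z
      have e2 := i2 n E hE z
      constructor
      · rintro ⟨q', hq', hs⟩
        rcases List.mem_cons.1 hq' with rfl | hq'
        · exact ⟨_, List.mem_cons_self, e.1 hs⟩
        · obtain ⟨t, ht, hs'⟩ := e2.1 ⟨q', hq', hs⟩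
          exact ⟨t, List.mem_cons_of_mem _ ht, hs'⟩
      · rintro ⟨t, ht, hs⟩
        rcases List.mem_cons.1 ht with rfl | ht
        · exact ⟨_, List.mem_cons_self, e.2 hs⟩
        · obtain ⟨q', hq', hs'⟩ := e2.2 ⟨t, ht, hs⟩
          exact ⟨q', List.mem_cons_of_mem _ hq', hs'⟩

end Pool.Agent.H91.SW
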